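import Pool.Agent.X55.Art.Few

set_option autoImplicit false

/-! # The corrected density, with a square root error term against the local prediction, for the bases
`B m²` where `m` arises from an arbitrary integer by changing a few digits

Nothing is used besides Mathlib in the statement. Libraries: helper894 (few digit changes), helper730
(main term, quadratic characters), helper890 (local densities), helper442, helper343 (theorem of Bombieri and
Vinogradov). New here: the main term with an error `O(x / (log x) ^ A)`, uniformly in the squarefree part. -/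

namespace Pool.Agent.Results.MP_991e92_nt.FewDigitChanges

open Finset

open Classical in
/-- the number of primes `p ≤ x` modulo which `n` is a primitive root -/
noncomputable def P (n : ℤ) (x : ℕ) : ℕ :=
  ((range (x + 1)).filter (fun p : ℕ => p.Prime ∧ orderOf (n : ZMod p) = p - 1)).card

/-- the density of Q1 for the integers with squarefree part `D`:
`(1 - μ(|D|) ∏_{q ∣ D} 1 / (q² - q - 1)) ∏_p (1 - 1 / (p (p - 1)))` -/
noncomputable def δ (D : ℤ) : ℝ :=
  (1 - ((ArithmeticFunction.moebius D.natAbs : ℤ) : ℝ) *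
      ∏ q ∈ D.natAbs.primeFactors, (1 / ((q : ℝ) ^ 2 - (q : ℝ) - 1))) *
    ∏' p : Nat.Primes, (1 - 1 / (((p : ℕ) : ℝ) * (((p : ℕ) : ℝ) - 1)))

/-- the local prediction for the bases `B m²`: the sum of `(1 - (B / p)) φ(p - 1) / (p - 1)` over the odd
primes `p ≤ x` which do not divide `B` -/
noncomputable def M (B : ℤ) (x : ℕ) : ℝ :=
  ∑ p ∈ (range (x + 1)).filter (fun p : ℕ => p.Prime ∧ p ≠ 2 ∧ ¬ (p : ℤ) ∣ B),
    (1 - (jacobiSym B p : ℝ)) * ((Nat.totient (p - 1) : ℝ) / ((p - 1 : ℕ) : ℝ))

/-- The digit number `i` (counted from the right, beginning with `0`) of `n` in base `b`. -/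
def digit (b i n : ℕ) : ℕ := n / b ^ i % b

/-- The number which arises from the number `N` with at most `K` digits in base `b`, if for every `i ∈ S`
the digit number `i` is replaced by `f i`. -/
def change (b K N : ℕ) (f : ℕ → ℕ) (S : Finset ℕ) : ℕ :=
  ∑ i ∈ range K, (if i ∈ S then f i else digit b i N) * b ^ i

open Classical in
/-- The number of the choices of `r` of the `K` positions for which the number obtained by changing the
digits of `N` at the chosen positions (according to `f`) does not have the property `E`. -/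
noncomputable def exceptions (b K r N : ℕ) (f : ℕ → ℕ) (E : ℕ → Prop) : ℕ :=
  ((powersetCard r (range K)).filter (fun S => ¬ E (change b K N f S))).card

/-- For every integer `B ≠ 0` with `|B| ≤ x ^ A` the number of the primes `p ≤ x` with the primitive root
`B m²` differs from the local prediction by at most `x ^ (1 / 2 + ε)`, and if the squarefree part `D` of
`B` satisfies `D ≡ 1 mod 4`, `D ≠ 1`, `|D| ≤ (log x) ^ A`, then it differs from `δ(D) π(x)` by at most
`x / (log x) ^ A`. -/
def Good (ε : ℝ) (A m x : ℕ) : Prop :=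
  ∀ B : ℤ, B ≠ 0 → (|B| : ℝ) ≤ (x : ℝ) ^ A →
    |(P (B * (m : ℤ) ^ 2) x : ℝ) - M B x| ≤ (x : ℝ) ^ (1 / 2 + ε) ∧
    ∀ D k : ℤ, B = D * k ^ 2 → Squarefree D → D % 4 = 1 → D ≠ 1 → (|D| : ℝ) ≤ (Real.log x) ^ A →
      |(P (B * (m : ℤ) ^ 2) x : ℝ) - δ D * (Nat.primeCounting x : ℝ)| ≤ x / (Real.log x) ^ A

theorem P_eq (n : ℤ) (x : ℕ) : P n x = Pool.Agent.H730R2.AA.cnt n x := rfl

theorem M_eq (B : ℤ) (x : ℕ) : M B x = Pool.Agent.H730R2.AA.mainT B x := by
  unfold M Pool.Agent.H730R2.AA.mainT Pool.Agent.H730R2.AA.PR Pool.Agent.H730R2.AA.rho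
  exact sum_congr rfl fun p _ => mul_comm _ _

/-- Let a base `b ≥ 2`, `ε > 0` and an integer `A ≥ 0` be given. There are `c > 0` and `y₀` such that for
all integers `r, K, y` with `2 r ≤ K` and `y ≥ y₀`, every integer `0 ≤ N < b ^ K` and all prescribed new
digits the following holds. If one chooses `r` of the `K` positions and changes the digits of `N` at these
positions, then for all but at most a proportion `1 / y ^ A` of the choices the number `m` obtained is good
at EVERY `x` with `y ≤ x ≤ exp (c r)`. -/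
theorem result (b : ℕ) (hb : 2 ≤ b) (ε : ℝ) (hε : 0 < ε) (A : ℕ) : ∃ c : ℝ, 0 < c ∧ ∃ y₀ : ℕ,
    ∀ r K y : ℕ, 2 * r ≤ K → y₀ ≤ y → ∀ N : ℕ, N < b ^ K →
    ∀ f : ℕ → ℕ, (∀ j, f j < b ∧ f j ≠ digit b j N) →
      (exceptions b K r N f (fun m => ∀ x : ℕ, y ≤ x → (x : ℝ) ≤ Real.exp (c * r) → Good ε A m x) : ℝ) ≤
        1 / (y : ℝ) ^ A * (K.choose r : ℝ) := by
  classical
  obtain ⟨c, hc, y₀, h⟩ := Pool.Agent.X55.Art.few b hb ε hε A
  refine ⟨c, hc, y₀, fun r K y hrK hy N hN f hf => ?_⟩
  unfold exceptions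
  refine h r K y hrK hy N hN f hf _ (filter_subset _ _) ?_
  intro S hS
  rw [mem_filter] at hS
  intro hcon
  apply hS.2
  intro x hyx hxr B hB0 hBA
  have h1 := hcon x hyx hxr B hB0 hBA
  rw [M_eq, P_eq]
  exact h1

end Pool.Agent.Results.MP_991e92_nt.FewDigitChanges
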