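import Pool.Agent.X55.Art.Clt3

set_option autoImplicit false

/-! # A Gaussian law for the number of the primes with the primitive root `D m²`, `D ≡ 1 mod 4`

Nothing is used besides Mathlib in the statement. Libraries: helper894 (local densities), helper730 (main term,
quadratic characters), helper442, helper343 (theorem of Bombieri and Vinogradov, used for the variance),
helper586, helper114 (Taylor polynomials, passage from characteristic functions to distribution functions). -/

namespace Pool.Agent.Results.MP_991e92_nt.GaussianLaw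

open Finset Filter Topology ProbabilityTheory

open Classical in
/-- the number of primes `p ≤ x` modulo which `n` is a primitive root -/
noncomputable def P (n : ℤ) (x : ℕ) : ℕ :=
  ((range (x + 1)).filter (fun p : ℕ => p.Prime ∧ orderOf (n : ZMod p) = p - 1)).card

/-- the odd primes `p ≤ x` which do not divide `D` -/
def primes (D : ℤ) (x : ℕ) : Finset ℕ :=
  (range (x + 1)).filter (fun p : ℕ => p.Prime ∧ p ≠ 2 ∧ ¬ (p : ℤ) ∣ D)

/-- the local prediction: the sum of `(1 - (D / p)) φ(p - 1) / (p - 1)` over the odd primes `p ≤ x` which do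
not divide `D` -/
noncomputable def M (D : ℤ) (x : ℕ) : ℝ :=
  ∑ p ∈ primes D x, (1 - (jacobiSym D p : ℝ)) * ((Nat.totient (p - 1) : ℝ) / ((p - 1 : ℕ) : ℝ))

/-- the proportion of the residue classes `m mod p` for which `D m²` is a primitive root modulo `p` -/
noncomputable def f (D : ℤ) (p : ℕ) : ℝ := (1 - (jacobiSym D p : ℝ)) * ((Nat.totient (p - 1) : ℝ) / (p : ℝ))

/-- the variance: the sum of `f(p) (1 - f(p))` over the odd primes `p ≤ x` which do not divide `D` -/
noncomputable def V (D : ℤ) (x : ℕ) : ℝ := ∑ p ∈ primes D x, f D p * (1 - f D p)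

theorem P_eq (n : ℤ) (x : ℕ) : P n x = Pool.Agent.H730R2.AA.cnt n x := rfl

theorem M_eq (D : ℤ) (x : ℕ) : M D x = Pool.Agent.H730R2.AA.mainT D x := by
  unfold M primes Pool.Agent.H730R2.AA.mainT Pool.Agent.H730R2.AA.PR Pool.Agent.H730R2.AA.rho
  exact sum_congr rfl fun p _ => mul_comm _ _

theorem V_eq (D : ℤ) (x : ℕ) : V D x = Pool.Agent.X55.Art.Va D x := rfl

/-- Let `D(N)` be squarefree integers, `D(N) ≡ 1 mod 4`, `D(N) ≠ 1`, and `X(N)` positive integers with
`X(N) → ∞`, `log X(N) = o(log N)` and `|D(N)| ≤ (log X(N)) ^ A` (for instance `D` constant). If `m` is chosen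
at random among the integers `1 ≤ m ≤ N`, then the difference of the number `P` of the primes `p ≤ X(N)` with
the primitive root `D(N) m²` and the local prediction `M`, divided by the square root of the variance `V`,
converges in distribution to the standard normal law. Moreover `V` tends to infinity, faster than
`X(N) ^ (1 / 4)`. -/
theorem result (A : ℕ) (D : ℕ → ℤ) (X : ℕ → ℕ) (hD : ∀ N, Squarefree (D N)) (hD4 : ∀ N, D N % 4 = 1)
    (hD1 : ∀ N, D N ≠ 1) (hDA : ∀ N, (|D N| : ℝ) ≤ (Real.log (X N)) ^ A) (hX : Tendsto X atTop atTop)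
    (hXN : Tendsto (fun N : ℕ => Real.log (X N) / Real.log N) atTop (𝓝 0)) :
    (∀ t : ℝ, Tendsto (fun N : ℕ => (((Finset.Icc 1 N).filter (fun m : ℕ =>
        (P (D N * (m : ℤ) ^ 2) (X N) : ℝ) - M (D N) (X N) ≤ t * Real.sqrt (V (D N) (X N)))).card : ℝ) / N) atTop
      (𝓝 (cdf (gaussianReal 0 1) t))) ∧
    ∀ᶠ N : ℕ in atTop, (X N : ℝ) ^ (1 / 4 : ℝ) ≤ V (D N) (X N) := by
  classical
  have hlow : ∀ᶠ N : ℕ in atTop, (X N : ℝ) ^ (1 / 4 : ℝ) ≤ V (D N) (X N) := by
    obtain ⟨x₀, hx₀⟩ := Pool.Agent.X55.Art.var_low A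
    filter_upwards [hX.eventually_ge_atTop x₀] with N hN
    rw [V_eq]
    exact hx₀ (X N) hN (D N) (hD N) (hD4 N) (hD1 N) (hDA N)
  refine ⟨fun t => ?_, hlow⟩
  have hXr : Tendsto (fun N : ℕ => (X N : ℝ)) atTop atTop := tendsto_natCast_atTop_atTop.comp hX
  have hVlim : Tendsto (fun N => Pool.Agent.X55.Art.Va (D N) (X N)) atTop atTop := by
    refine tendsto_atTop_mono' atTop ?_ ((tendsto_rpow_atTop (show (0 : ℝ) < 1 / 4 by norm_num)).comp hXr)
    filter_upwards [hlow] with N hN
    exact hN
  have key := Pool.Agent.X55.Art.clt_seq (fun N => max (X N) 1) (fun N => Pool.Agent.H730R2.AA.PR (D N) (X N))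
    (fun N p n => Pool.Agent.X55.Art.Fc (D N) p n) (fun N => Pool.Agent.X55.Art.Va (D N) (X N))
    (fun N => 3 + 2 * Real.log (X N))
    (fun N m => (Pool.Agent.H730R2.AA.cnt (D N * (m : ℤ) ^ 2) (X N) : ℝ) - Pool.Agent.H730R2.AA.mainT (D N) (X N))
    (fun N => le_max_right _ _)
    (fun N p hp => by
      rw [Pool.Agent.H730R2.AA.PR, mem_filter, mem_range] at hp
      exact ⟨hp.2.1, le_max_of_le_left (by omega)⟩)
    (fun N p _ n => Pool.Agent.X55.Art.Fc_per (D N) p n)
    (fun N p hp n => by
      rw [Pool.Agent.H730R2.AA.PR, mem_filter] at hp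
      exact Pool.Agent.X55.Art.Fc_abs (D N) p hp.2.1 hp.2.2.1 hp.2.2.2 n)
    (fun N p hp => by
      rw [Pool.Agent.H730R2.AA.PR, mem_filter] at hp
      exact Pool.Agent.X55.Art.Fc_sum (D N) p hp.2.1 hp.2.2.1 hp.2.2.2)
    (fun N => by
      unfold Pool.Agent.X55.Art.Va
      refine sum_congr rfl fun p hp => ?_
      rw [Pool.Agent.H730R2.AA.PR, mem_filter] at hp
      exact Pool.Agent.X55.Art.Fc_sq (D N) p hp.2.1 hp.2.2.1 hp.2.2.2)
    hVlim
    (fun j => by
      have h1 : ∀ᶠ N : ℕ in atTop, ((max (X N) 1 : ℕ) : ℝ) ^ j / N ≤ (N : ℝ) ^ (-(1 / 2) : ℝ) := by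
        have h2 : ∀ᶠ N : ℕ in atTop, Real.log (X N) / Real.log N < 1 / (2 * (j + 1)) :=
          hXN.eventually (gt_mem_nhds (by positivity))
        filter_upwards [h2, eventually_ge_atTop 3, hX.eventually_ge_atTop 1] with N k1 k2 k3
        have hN0 : (0 : ℝ) < N := by exact_mod_cast (by omega : 0 < N)
        have hl : 0 < Real.log N := Real.log_pos (by exact_mod_cast (by omega : 1 < N))
        have hx0 : (0 : ℝ) < X N := by exact_mod_cast (by omega : 0 < X N)
        rw [div_lt_iff₀ hl] at k1
        have k4 : (X N : ℝ) ^ j ≤ (N : ℝ) ^ (1 / 2 : ℝ) := by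
          rw [← Real.log_le_log_iff (by positivity) (by positivity), Real.log_pow, Real.log_rpow hN0]
          have k5 : (j : ℝ) * Real.log (X N) ≤ j * (1 / (2 * (j + 1)) * Real.log N) :=
            mul_le_mul_of_nonneg_left k1.le (Nat.cast_nonneg _)
          refine k5.trans ?_
          have k6 : (j : ℝ) * (1 / (2 * (j + 1)) * Real.log N) = 1 / 2 * (j / (j + 1)) * Real.log N := by
            have : (j : ℝ) + 1 ≠ 0 := by positivity
            field_simp
          rw [k6]
          apply mul_le_mul_of_nonneg_right _ hl.le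
          have : (j : ℝ) / (j + 1) ≤ 1 := by
            rw [div_le_one (by positivity)]
            linarith
          linarith
        rw [max_eq_left k3, div_le_iff₀ hN0]
        refine k4.trans (le_of_eq ?_)
        nth_rewrite 3 [← Real.rpow_one (N : ℝ)]
        rw [← Real.rpow_add hN0]
        norm_num
      refine squeeze_zero' (Eventually.of_forall fun N => by positivity) h1 ?_
      exact (tendsto_rpow_neg_atTop (by norm_num)).comp tendsto_natCast_atTop_atTop)
    (fun N m => Pool.Agent.X55.Art.cnt_cmp (D N) m (X N))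
    (by
      have h1 : Tendsto (fun x : ℝ => (3 + 2 * Real.log x) / x ^ (1 / 8 : ℝ)) atTop (𝓝 0) := by
        have h2 : Tendsto (fun x : ℝ => Real.log x / x ^ (1 / 8 : ℝ)) atTop (𝓝 0) :=
          (isLittleO_log_rpow_atTop (by norm_num)).tendsto_div_nhds_zero
        have h3 : Tendsto (fun x : ℝ => x ^ (-(1 / 8) : ℝ)) atTop (𝓝 0) := tendsto_rpow_neg_atTop (by norm_num)
        have h4 := (h3.const_mul 3).add (h2.const_mul 2)
        rw [mul_zero, mul_zero, add_zero] at h4
        refine h4.congr' ?_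
        filter_upwards [eventually_gt_atTop 0] with x hx
        rw [Real.rpow_neg hx.le]
        field_simp
      refine squeeze_zero' ?_ ?_ (h1.comp hXr)
      · filter_upwards [hX.eventually_ge_atTop 1] with N hN
        have : 0 ≤ Real.log (X N) := Real.log_nonneg (by exact_mod_cast hN)
        positivity
      · filter_upwards [hX.eventually_ge_atTop 1, hlow] with N hN hV
        have h5 : 0 ≤ Real.log (X N) := Real.log_nonneg (by exact_mod_cast hN)
        have hx0 : (0 : ℝ) < X N := by exact_mod_cast hN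
        show (3 + 2 * Real.log (X N)) / Real.sqrt (Pool.Agent.X55.Art.Va (D N) (X N)) ≤ (3 + 2 * Real.log (X N)) / (X N : ℝ) ^ (1 / 8 : ℝ)
        apply div_le_div_of_nonneg_left (by linarith) (by positivity)
        rw [V_eq] at hV
        apply Real.le_sqrt_of_sq_le
        rw [← Real.rpow_natCast, ← Real.rpow_mul hx0.le]
        norm_num at hV ⊢
        exact hV) t
  simp only [M_eq]
  exact key

end Pool.Agent.Results.MP_991e92_nt.GaussianLaw
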