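import Pool.Agent.X55.Art.Poly2

set_option autoImplicit false

/-! # The corrected density for the bases `B G(m)²` with a polynomial `G`

Nothing is used besides Mathlib in the statement. Libraries: helper435 (Weil's bound for character sums),
helper890 (primitive roots and characters, local densities), helper894 (local densities), helper730 (main term,
quadratic characters), helper112 (large sieve), helper442, helper343 (theorem of Bombieri and Vinogradov),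
helper510 (divisor bound). -/

namespace Pool.Agent.Results.MP_991e92_nt.PolynomialValues

open Finset Filter Polynomial

open Classical in
/-- the number of primes `p ≤ x` modulo which `n` is a primitive root -/
noncomputable def P (n : ℤ) (x : ℕ) : ℕ :=
  ((range (x + 1)).filter (fun p : ℕ => p.Prime ∧ orderOf (n : ZMod p) = p - 1)).card

/-- the density of Q1 for the integers with squarefree part `D`:
`(1 - μ(|D|) ∏_{q ∣ D} 1 / (q² - q - 1)) ∏_p (1 - 1 / (p (p - 1)))` -/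
noncomputable def δ (D : ℤ) : ℝ :=
  (1 - ((ArithmeticFunction.moebius D.natAbs : ℤ) : ℝ) *
      ∏ q ∈ D.natAbs.primeFactors, (1 / ((q : ℝ) ^ 2 - (q : ℝ) - 1))) *
    ∏' p : Nat.Primes, (1 - 1 / (((p : ℕ) : ℝ) * (((p : ℕ) : ℝ) - 1)))

/-- the local prediction for the integers `B t²`: the sum of `(1 - (B / p)) φ(p - 1) / (p - 1)` over the odd
primes `p ≤ x` which do not divide `B` -/
noncomputable def M (B : ℤ) (x : ℕ) : ℝ :=
  ∑ p ∈ (range (x + 1)).filter (fun p : ℕ => p.Prime ∧ p ≠ 2 ∧ ¬ (p : ℤ) ∣ B),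
    (1 - (jacobiSym B p : ℝ)) * ((Nat.totient (p - 1) : ℝ) / ((p - 1 : ℕ) : ℝ))

/-- The number of the primes `p ≤ x` with the primitive root `B G(m)²` differs from the local prediction by at
most `x ^ (1 - c)`, and if `|B| ≤ N ^ A` and the squarefree part `D` of `B` satisfies `D ≡ 1 mod 4`, `D ≠ 1`,
`|D| ≤ (log x) ^ A`, then it differs from `δ(D) π(x)` by at most `x / (log x) ^ A`. -/
def Good (G : ℤ[X]) (c : ℝ) (A : ℕ) (B : ℤ) (N m x : ℕ) : Prop :=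
  |(P (B * (G.eval (m : ℤ)) ^ 2) x : ℝ) - M B x| ≤ (x : ℝ) ^ (1 - c) ∧
  ∀ D k : ℤ, B = D * k ^ 2 → (|B| : ℝ) ≤ (N : ℝ) ^ A → k ≠ 0 → Squarefree D → D % 4 = 1 → D ≠ 1 →
    (|D| : ℝ) ≤ (Real.log x) ^ A →
      |(P (B * (G.eval (m : ℤ)) ^ 2) x : ℝ) - δ D * (Nat.primeCounting x : ℝ)| ≤ x / (Real.log x) ^ A

theorem P_eq (n : ℤ) (x : ℕ) : P n x = Pool.Agent.H730R2.AA.cnt n x := rfl

theorem M_eq (B : ℤ) (x : ℕ) : M B x = Pool.Agent.H730R2.AA.mainT B x := by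
  unfold M Pool.Agent.H730R2.AA.mainT Pool.Agent.H730R2.AA.PR Pool.Agent.H730R2.AA.rho
  exact sum_congr rfl fun p _ => mul_comm _ _

theorem δ_eq (D : ℤ) : δ D = Pool.Agent.H730R2.AA.dens D := rfl

open Classical in
/-- Let `G` be an integer polynomial with a simple rational zero. Let `σ > 1`, `θ > 3 / 4`,
`θ > 1 / 2 + 1 / (2 σ)`, `0 < α < θ` and an integer `A ≥ 0` be given. There are `0 < c < 1` and `N₀` such that
for every `N ≥ N₀` and EVERY integer `B` all but at most `N ^ θ` of the integers `m ≤ N` are good at EVERY `x`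
with `(log N) ^ σ ≤ x ≤ N ^ α`. -/
theorem result (G : ℤ[X]) (hG : ∃ r : ℚ, aeval r G = 0 ∧ aeval r (derivative G) ≠ 0) (σ θ α : ℝ) (hσ : 1 < σ)
    (h1 : 1 / 2 + 1 / (2 * σ) < θ) (h2 : 3 / 4 < θ) (hα : 0 < α) (hαθ : α < θ) (A : ℕ) :
    ∃ c : ℝ, 0 < c ∧ c < 1 ∧ ∃ N₀ : ℕ, ∀ N : ℕ, N₀ ≤ N → ∀ B : ℤ,
      (((Finset.Icc 1 N).filter (fun m : ℕ => ∃ x : ℕ, (Real.log N) ^ σ ≤ x ∧ (x : ℝ) ≤ (N : ℝ) ^ α ∧
        ¬ Good G c A B N m x)).card : ℝ) ≤ (N : ℝ) ^ θ := by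
  obtain ⟨r, hr0, hr1⟩ := hG
  have hσ0 : 0 < σ := by linarith
  obtain ⟨β, hβ⟩ : ∃ β, β = 1 - 1 / σ := ⟨_, rfl⟩
  have hσ1 : 1 / σ < 1 := by rw [div_lt_one hσ0]; exact hσ
  have hσ2 : 0 < 1 / σ := by positivity
  have hβ0 : 0 < β := by rw [hβ]; linarith
  have hβ1 : β < 1 := by rw [hβ]; linarith
  have h3 : 1 - β / 2 < θ := by
    rw [hβ]
    have : 1 / (2 * σ) = 1 / σ / 2 := by field_simp
    rw [this] at h1
    linarith
  obtain ⟨c, hc0, hc1, N₁, hN₁⟩ := Pool.Agent.X55.Art.all_xP G r hr0 hr1 β θ α hβ0 hβ1 h3 h2 hα hαθ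
  obtain ⟨N₂, hN₂⟩ := Pool.Agent.X55.Art.to_dens σ c hσ hc0 A
  refine ⟨c, hc0, hc1, max N₁ (max N₂ 3), fun N hN B => ?_⟩
  have hN1 : N₁ ≤ N := (le_max_left _ _).trans hN
  have hN2 : N₂ ≤ N := (le_max_left _ _).trans ((le_max_right _ _).trans hN)
  have hN3 : 3 ≤ N := (le_max_right _ _).trans ((le_max_right _ _).trans hN)
  have hlN : 0 ≤ Real.log N := Real.log_nonneg (by exact_mod_cast (by omega : 1 ≤ N))
  refine hN₁ N hN1 B _ (filter_subset _ _) ?_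
  intro m hm
  rw [mem_filter] at hm
  obtain ⟨hmI, x, hx1, hx2, hx3⟩ := hm
  have hxl : Real.log N ≤ (x : ℝ) ^ (1 / σ) := by
    have h5 : ((Real.log N) ^ σ) ^ (1 / σ) ≤ (x : ℝ) ^ (1 / σ) :=
      Real.rpow_le_rpow (by positivity) hx1 hσ2.le
    rw [← Real.rpow_mul hlN, mul_one_div_cancel hσ0.ne', Real.rpow_one] at h5
    exact h5
  have hxl' : Real.log N ≤ (x : ℝ) ^ (1 - β) := by
    rw [hβ]
    simpa using hxl
  refine ⟨x, hxl', hx2, ?_⟩
  by_contra hcon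
  push Not at hcon
  apply hx3
  refine ⟨by rw [P_eq, M_eq]; exact hcon, ?_⟩
  intro D k hB hBA hk hD hD1 hD2 hDx
  rw [P_eq, δ_eq]
  exact hN₂ N hN2 x hx1 _ B D k hB hBA hk hD hD1 hD2 hDx hcon

end Pool.Agent.Results.MP_991e92_nt.PolynomialValues
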