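import Pool.Agent.X55.Art.Pl3

set_option autoImplicit false

/-! # The corrected density with at most `N ^ θ` exceptions, at every `x` from a power of `log N` on

Nothing is used besides Mathlib in the statement. Libraries: helper894 (local densities), helper730 (main term,
quadratic characters), helper112 (large sieve), helper442, helper343 (theorem of Bombieri and Vinogradov).
New here: the comparison of high moments over `m ≤ N` with the independent model by the large sieve, and the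
main term with an error `O(x / (log x) ^ A)`. -/

namespace Pool.Agent.Results.MP_991e92_nt.PowersOfLogarithm

open Finset Filter

open Classical in
/-- the number of primes `p ≤ x` modulo which `n` is a primitive root -/
noncomputable def P (n : ℤ) (x : ℕ) : ℕ :=
  ((range (x + 1)).filter (fun p : ℕ => p.Prime ∧ orderOf (n : ZMod p) = p - 1)).card

/-- the density of Q1 for the integers with squarefree part `D`:
`(1 - μ(|D|) ∏_{q ∣ D} 1 / (q² - q - 1)) ∏_p (1 - 1 / (p (p - 1)))` -/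
noncomputable def δ (D : ℤ) : ℝ :=
  (1 - ((ArithmeticFunction.moebius D.natAbs : ℤ) : ℝ) *
      ∏ q ∈ D.natAbs.primeFactors, (1 / ((q : ℝ) ^ 2 - (q : ℝ) - 1))) *
    ∏' p : Nat.Primes, (1 - 1 / (((p : ℕ) : ℝ) * (((p : ℕ) : ℝ) - 1)))

/-- the local prediction for the bases `B m²`: the sum of `(1 - (B / p)) φ(p - 1) / (p - 1)` over the odd
primes `p ≤ x` which do not divide `B` -/
noncomputable def M (B : ℤ) (x : ℕ) : ℝ :=
  ∑ p ∈ (range (x + 1)).filter (fun p : ℕ => p.Prime ∧ p ≠ 2 ∧ ¬ (p : ℤ) ∣ B),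
    (1 - (jacobiSym B p : ℝ)) * ((Nat.totient (p - 1) : ℝ) / ((p - 1 : ℕ) : ℝ))

/-- The number of the primes `p ≤ x` with the primitive root `B m²` differs from the local prediction by at
most `x ^ (1 - c)`, and if `|B| ≤ N ^ A` and the squarefree part `D` of `B` satisfies `D ≡ 1 mod 4`, `D ≠ 1`,
`|D| ≤ (log x) ^ A`, then it differs from `δ(D) π(x)` by at most `x / (log x) ^ A`. -/
def Good (c : ℝ) (A : ℕ) (B : ℤ) (N m x : ℕ) : Prop :=
  |(P (B * (m : ℤ) ^ 2) x : ℝ) - M B x| ≤ (x : ℝ) ^ (1 - c) ∧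
  ∀ D k : ℤ, B = D * k ^ 2 → (|B| : ℝ) ≤ (N : ℝ) ^ A → k ≠ 0 → Squarefree D → D % 4 = 1 → D ≠ 1 →
    (|D| : ℝ) ≤ (Real.log x) ^ A →
      |(P (B * (m : ℤ) ^ 2) x : ℝ) - δ D * (Nat.primeCounting x : ℝ)| ≤ x / (Real.log x) ^ A

theorem P_eq (n : ℤ) (x : ℕ) : P n x = Pool.Agent.H730R2.AA.cnt n x := rfl

theorem M_eq (B : ℤ) (x : ℕ) : M B x = Pool.Agent.H730R2.AA.mainT B x := by
  unfold M Pool.Agent.H730R2.AA.mainT Pool.Agent.H730R2.AA.PR Pool.Agent.H730R2.AA.rho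
  exact sum_congr rfl fun p _ => mul_comm _ _

theorem δ_eq (D : ℤ) : δ D = Pool.Agent.H730R2.AA.dens D := rfl

open Classical in
/-- Let `σ > 1`, `θ > 3 / 4`, `θ > 1 / 2 + 1 / (2 σ)` and an integer `A ≥ 0` be given. There are `0 < c < 1`
and `N₀` such that for every `N ≥ N₀` and EVERY integer `B` all but at most `N ^ θ` of the integers `m ≤ N`
are good at EVERY `x` with `(log N) ^ σ ≤ x ≤ N ^ A`. -/
theorem result (σ θ : ℝ) (hσ : 1 < σ) (h1 : 1 / 2 + 1 / (2 * σ) < θ) (h2 : 3 / 4 < θ) (A : ℕ) :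
    ∃ c : ℝ, 0 < c ∧ c < 1 ∧ ∃ N₀ : ℕ, ∀ N : ℕ, N₀ ≤ N → ∀ B : ℤ,
      (((Finset.Icc 1 N).filter (fun m : ℕ => ∃ x : ℕ, (Real.log N) ^ σ ≤ x ∧ x ≤ N ^ A ∧
        ¬ Good c A B N m x)).card : ℝ) ≤ (N : ℝ) ^ θ := by
  have hσ0 : 0 < σ := by linarith
  obtain ⟨β, hβ⟩ : ∃ β, β = 1 - 1 / σ := ⟨_, rfl⟩
  have hσ1 : 1 / σ < 1 := by rw [div_lt_one hσ0]; exact hσ
  have hσ2 : 0 < 1 / σ := by positivity
  have hβ0 : 0 < β := by rw [hβ]; linarith
  have hβ1 : β < 1 := by rw [hβ]; linarith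
  have h3 : 1 - β / 2 < θ := by
    rw [hβ]
    have : 1 / (2 * σ) = 1 / σ / 2 := by field_simp
    rw [this] at h1
    linarith
  obtain ⟨c, hc0, hc1, N₁, hN₁⟩ := Pool.Agent.X55.Art.all_x β θ hβ0 hβ1 h3 h2 A
  obtain ⟨x₁, hx₁⟩ := Pool.Agent.X55.Art.ml (A + 1) A
  -- large `x`
  have ev : ∀ᶠ x : ℝ in atTop, x ^ (1 - c) + 4 * (A * x ^ (1 / σ)) + x / (Real.log x) ^ (A + 1) ≤
      x / (Real.log x) ^ A := by
    have e1 : ∀ᶠ x : ℝ in atTop, Real.log x ^ A ≤ 1 / 4 * x ^ c := by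
      have h := (isLittleO_log_rpow_rpow_atTop (A : ℝ) hc0).bound (c := 1 / 4) (by norm_num)
      filter_upwards [h, eventually_gt_atTop 1] with x h1 h2
      rw [Real.rpow_natCast, Real.norm_of_nonneg (pow_nonneg (Real.log_nonneg h2.le) _),
        Real.norm_of_nonneg (by positivity)] at h1
      exact h1
    have e2 : ∀ᶠ x : ℝ in atTop, Real.log x ^ A ≤ 1 / (16 * (A + 1)) * x ^ (1 - 1 / σ) := by
      have h := (isLittleO_log_rpow_rpow_atTop (A : ℝ) (show 0 < 1 - 1 / σ by linarith)).bound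
        (c := 1 / (16 * ((A : ℝ) + 1))) (by positivity)
      filter_upwards [h, eventually_gt_atTop 1] with x h1 h2
      rw [Real.rpow_natCast, Real.norm_of_nonneg (pow_nonneg (Real.log_nonneg h2.le) _),
        Real.norm_of_nonneg (by positivity)] at h1
      exact h1
    have e3 : ∀ᶠ x : ℝ in atTop, 4 ≤ Real.log x := Real.tendsto_log_atTop.eventually_ge_atTop 4
    filter_upwards [e1, e2, e3, eventually_gt_atTop 1] with x k1 k2 k3 k4
    have hx0 : 0 < x := by linarith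
    have hl : 0 < Real.log x := by linarith
    have hlA : 0 < Real.log x ^ A := by positivity
    have m1 : x ^ (1 - c) ≤ 1 / 4 * (x / Real.log x ^ A) := by
      rw [← mul_div_assoc, le_div_iff₀ hlA]
      calc x ^ (1 - c) * Real.log x ^ A ≤ x ^ (1 - c) * (1 / 4 * x ^ c) :=
            mul_le_mul_of_nonneg_left k1 (by positivity)
        _ = 1 / 4 * (x ^ (1 - c) * x ^ c) := by ring
        _ = 1 / 4 * x := by rw [← Real.rpow_add hx0]; norm_num
    have m2 : 4 * (A * x ^ (1 / σ)) ≤ 1 / 4 * (x / Real.log x ^ A) := by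
      rw [← mul_div_assoc, le_div_iff₀ hlA]
      calc 4 * (A * x ^ (1 / σ)) * Real.log x ^ A
          ≤ 4 * (A * x ^ (1 / σ)) * (1 / (16 * (A + 1)) * x ^ (1 - 1 / σ)) :=
            mul_le_mul_of_nonneg_left k2 (by positivity)
        _ = 1 / 4 * (A / (A + 1)) * (x ^ (1 / σ) * x ^ (1 - 1 / σ)) := by
            have : (A : ℝ) + 1 ≠ 0 := by positivity
            field_simp
            ring
        _ = 1 / 4 * (A / (A + 1)) * x := by rw [← Real.rpow_add hx0]; norm_num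
        _ ≤ 1 / 4 * x := by
            have h5 : (A : ℝ) / (A + 1) ≤ 1 := by
              rw [div_le_one (by positivity)]
              linarith
            nlinarith
    have m3 : x / Real.log x ^ (A + 1) ≤ 1 / 4 * (x / Real.log x ^ A) := by
      rw [pow_succ, ← div_div, div_le_iff₀ hl]
      have : 0 ≤ x / Real.log x ^ A := by positivity
      nlinarith
    have m4 : 0 ≤ x / Real.log x ^ A := by positivity
    linarith
  obtain ⟨x₂, hx₂⟩ := Pool.Agent.X55.Art.ev_nat ev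
  have evN : ∀ᶠ N : ℝ in atTop, ((max x₁ x₂ + 3 : ℕ) : ℝ) ≤ (Real.log N) ^ σ :=
    ((tendsto_rpow_atTop hσ0).comp Real.tendsto_log_atTop).eventually_ge_atTop _
  obtain ⟨N₂, hN₂⟩ := Pool.Agent.X55.Art.ev_nat evN
  refine ⟨c, hc0, hc1, max N₁ (max N₂ 3), fun N hN B => ?_⟩
  have hN1 : N₁ ≤ N := (le_max_left _ _).trans hN
  have hN2 : N₂ ≤ N := (le_max_left _ _).trans ((le_max_right _ _).trans hN)
  have hN3 : 3 ≤ N := (le_max_right _ _).trans ((le_max_right _ _).trans hN)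
  have hN1r : (1 : ℝ) ≤ N := by exact_mod_cast (by omega : 1 ≤ N)
  have hN0r : (0 : ℝ) < N := by linarith
  have hlN : 0 ≤ Real.log N := Real.log_nonneg hN1r
  refine hN₁ N hN1 B _ (filter_subset _ _) ?_
  intro m hm
  rw [mem_filter] at hm
  obtain ⟨hmI, x, hx1, hx2, hx3⟩ := hm
  have hxl : Real.log N ≤ (x : ℝ) ^ (1 / σ) := by
    have h5 : ((Real.log N) ^ σ) ^ (1 / σ) ≤ (x : ℝ) ^ (1 / σ) :=
      Real.rpow_le_rpow (by positivity) hx1 hσ2.le
    rw [← Real.rpow_mul hlN, mul_one_div_cancel hσ0.ne', Real.rpow_one] at h5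
    exact h5
  have hxl' : Real.log N ≤ (x : ℝ) ^ (1 - β) := by
    rw [hβ]
    simpa using hxl
  refine ⟨x, hxl', hx2, ?_⟩
  by_contra hcon
  push Not at hcon
  apply hx3
  have hxM : (max x₁ x₂ + 3 : ℕ) ≤ x := by
    have := (hN₂ N hN2).trans hx1
    exact_mod_cast this
  have hxa : x₁ ≤ x := by
    have := le_max_left x₁ x₂
    omega
  have hxb : x₂ ≤ x := by
    have := le_max_right x₁ x₂
    omega
  refine ⟨by rw [P_eq, M_eq]; exact hcon, ?_⟩
  intro D k hB hBA hk hD hD1 hD2 hDx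
  rw [P_eq, δ_eq]
  have hD0 : D ≠ 0 := hD.ne_zero
  have f1 := Pool.Agent.X55.Art.mainT_sq D k hk x
  have f2 := Pool.Agent.X55.Art.pf_le_log (k := k.natAbs) (by omega)
  have f3 := hx₁ x hxa D hD hD1 hD2 (by
    rw [Nat.cast_natAbs, Int.cast_abs]
    exact hDx)
  have f4 : Real.log (k.natAbs : ℝ) ≤ A * Real.log N := by
    have g1 : (k.natAbs : ℝ) ≤ (N : ℝ) ^ A := by
      refine le_trans ?_ hBA
      have g2 : (k.natAbs : ℝ) = |(k : ℝ)| := by rw [Nat.cast_natAbs, Int.cast_abs]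
      rw [g2, hB]
      push_cast
      rw [abs_mul, abs_pow]
      have g3 : (1 : ℝ) ≤ |(D : ℝ)| := by
        have : (1 : ℤ) ≤ |D| := Int.one_le_abs hD0
        exact_mod_cast this
      have g4 : (1 : ℝ) ≤ |(k : ℝ)| := by
        have : (1 : ℤ) ≤ |k| := Int.one_le_abs hk
        exact_mod_cast this
      nlinarith [mul_le_mul_of_nonneg_right g3 (sq_nonneg |(k : ℝ)|)]
    have g5 : Real.log (k.natAbs : ℝ) ≤ Real.log ((N : ℝ) ^ A) := by
      apply Real.log_le_log _ g1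
      exact_mod_cast (by omega : 0 < k.natAbs)
    rwa [Real.log_pow] at g5
  have f5 : (A : ℝ) * Real.log N ≤ A * (x : ℝ) ^ (1 / σ) := mul_le_mul_of_nonneg_left hxl (Nat.cast_nonneg _)
  have f6 := hx₂ x hxb
  rw [hB] at hcon ⊢
  have f7 : |(Pool.Agent.H730R2.AA.cnt (D * k ^ 2 * (m : ℤ) ^ 2) x : ℝ) - Pool.Agent.H730R2.AA.dens D * (Nat.primeCounting x : ℝ)| ≤
      |(Pool.Agent.H730R2.AA.cnt (D * k ^ 2 * (m : ℤ) ^ 2) x : ℝ) - Pool.Agent.H730R2.AA.mainT (D * k ^ 2) x| +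
      |Pool.Agent.H730R2.AA.mainT (D * k ^ 2) x - Pool.Agent.H730R2.AA.mainT D x| +
      |Pool.Agent.H730R2.AA.mainT D x - Pool.Agent.H730R2.AA.dens D * (Nat.primeCounting x : ℝ)| := by
    refine (abs_sub_le _ (Pool.Agent.H730R2.AA.mainT D x) _).trans ?_
    have := abs_sub_le (Pool.Agent.H730R2.AA.cnt (D * k ^ 2 * (m : ℤ) ^ 2) x : ℝ)
      (Pool.Agent.H730R2.AA.mainT (D * k ^ 2) x) (Pool.Agent.H730R2.AA.mainT D x)
    linarith
  linarith

end Pool.Agent.Results.MP_991e92_nt.PowersOfLogarithm
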